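import Pool.Agent.Lib_MP_b9fedf_ci.Fin4

/-!
# General complete intersections of large codimension have ample cotangent bundle

Let `X` be a general complete intersection of dimension `n ≥ 1` and codimension `c ≥ 18 n²` in
projective space; the degrees of the equations are arbitrary numbers `≥ 2` (for example an
intersection of quadrics). Then the cotangent bundle of `X` is ample and `X` contains no non-constant
entire curve. The same holds if `c ≥ 6 n` and the degrees are `≥ 18 n`.

Sketch of the proof. Write `DF(x, v) = ∑ v_j ∂_j F(x)`. For the special member
`y_i ^ d_i = b_i(x)`, `b_i` a product of linear forms, one determines the dimensions of the spaces of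
bihomogeneous forms modulo the ideals `(F_i, DF_i, l)`, `l` linear, and of their restrictions to the
variety of pairs `(x, v)`. By semicontinuity there is, over the field of rational functions in the
coefficients, a form `P(x, v)` of bidegree `(α, β)` which lies in the ideals `(F_i, DF_i, l_j)` for each of
`h > α + β` linear forms `l_j` and does not vanish on the variety of pairs. The leading coefficient of
`P(x, v + t x)` in `t` has the same properties and is invariant, so it gives a symmetric
differential with values in a negative line bundle. If the coefficients are algebraically independent,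
a pair `(x, v)` depends on `2n - 1` numbers, so with respect to it all members but at most `2n - 1`
are general; they define a complete intersection of dimension `3n - 1`, and after a change of
coordinates `P` does not vanish at `(x, v)`. For an entire curve `f` the theorem of Jensen and the lemma
on the logarithmic derivative, applied to `P(f, f')`, give `T_f = O(log r)` and then a contradiction.
By elimination the forms exist for all members outside a proper closed subset.
-/

set_option autoImplicit false

namespace Pool.Agent.Results.MP_b9fedf_ag.AmpleCotangent

open MvPolynomial Pool.Agent.GGL Pool.Agent.GH Pool.Agent.CI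

/-- (1) Let `n ≥ 1`, `d_1, …, d_c ≥ 2`, `5n ≤ c + 3`, and let the sum of `d_i - 1` over each set of `c - 5n + 3`
indices be greater than `2 (3n - 1)²` (`Large`). For the forms `F_i = fa a i` of degree `d_i` in `n + c + 1`
variables with general coefficients `a` (off the zeros of a nonzero polynomial `S` with rational
coefficients) the complete intersection `X : F_1 = … = F_c = 0` of dimension `n` is smooth, its cotangent
bundle is ample, and every entire curve in `X` is constant.

(2) The condition holds if `c ≥ 18 n²`, or if `c ≥ 6n` and all `d_i ≥ 18 n`, or if `c ≥ 5n` and all
`d_i > 6 n²`.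

Ample means: for each `x` in `X` and each tangent vector `v`, not a multiple of `x`, there are linear forms
`l_1, …, l_h` which have normal crossings on `X` and a form `G(x, v)` of bidegree `(α, β)`, `α + β < h`, invariant
under `v ↦ v + t x` on the tangent bundle, which lies in the ideal `(F_i, DF_i, l_j)` for each `j` and does
not vanish at `(x, v)`: `G / ∏ l_j` is a section of the symmetric power `S^β` of the cotangent bundle,
twisted by `O(α + β - h)`, which does not vanish at `v`. -/
theorem result :
    (∀ (n c : ℕ) (d : Fin c → ℕ), 1 ≤ n → (∀ i, 2 ≤ d i) → Large n c d →
      ∃ S : MvPolynomial (Ix (n + c) d) ℚ, S ≠ 0 ∧ ∀ a : Ix (n + c) d → ℂ,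
        MvPolynomial.aeval a S ≠ 0 → Smth (fa a) ∧ AmpleCot (fa a) ∧ NoCurves (fa a)) ∧
    ∀ (n c : ℕ) (d : Fin c → ℕ), 1 ≤ n → (∀ i, 2 ≤ d i) →
      (18 * n ^ 2 ≤ c ∨ (6 * n ≤ c ∧ ∀ i, 18 * n ≤ d i) ∨ (5 * n ≤ c ∧ ∀ i, 6 * n ^ 2 < d i)) →
      Large n c d :=
  ⟨fun n c d hn hd h => main_ample n c d hn hd h, fun n c d hn hd h => large_of3 n c d hn hd h⟩

end Pool.Agent.Results.MP_b9fedf_ag.AmpleCotangent
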