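import Pool.Agent.Lib_MP_b9fedf_gh.Apps
import Pool.Agent.Lib_MP_b9fedf_gh.Open49
import Pool.Agent.Lib_MP_b9fedf_gh.HypCI

/-!
# A second main theorem with truncation level one for general hypersurfaces of any degree

Sketch of the proof. Write `Db(x, v) = ∑ v_j ∂_j b(x)`. By a count of dimensions there is a
bihomogeneous form `G(x, v) ≠ 0` of bidegree `(n(d t₁ - 1), n(t₂ - 1))` in the ideals
`(b_i(x), Db_i(x, v))` of all `Q` members. Let the coefficients of the members be algebraically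
independent. A pair `(x, v)` depends on `2n` numbers up to scalars, so all members but at most `2n`
are general with respect to it, and `G` can be chosen with `G(x, v) ≠ 0`. The members have normal
crossings; by the lemma of Schwarz `|G(x, v)|` is bounded by the product of the
`|b_i(x)| + |Db_i(x, v)|` for `|x| = 1`, `|v| ≤ 1`. For an entire curve `F` one takes
`v = F_0 F' - F_0' F` and the mean values of the logarithms over the circles: the theorem of Jensen
and the lemma on the logarithmic derivative give the inequality, without the theorem of Cartan. By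
elimination the forms `G` exist for all families outside a proper closed subset.
-/

set_option autoImplicit false

namespace Pool.Agent.Results.MP_b9fedf_ag.GeneralHypersurfaces

open Pool.Agent.GGL Pool.Agent.SQ Pool.Agent.Stat Pool.Agent.LO Pool.Agent.GH Pool.Agent.QY

open scoped Classical in
/-- Let `n, d ≥ 1` and let `b_i = frm (a i)` be forms of degree `d` in `n + 1` variables with the
coefficients `a i`, `i < Q`. The word general means: for all `a` off the zeros of a nonzero polynomial `R`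
with rational coefficients.

Let `t₁, t₂ ≥ 2` and `Q ((d-1) t₂ + d t₁) < d t₁² t₂`. For general `a`:

(1) The second main theorem with truncation level one holds for all non-constant entire curves of
`ℙⁿ`, with the factor `d Q - err`, `err = n d (t₁+2) + 2 n t₂ - 3 n`.

(2) If a variety `X` over `ℙⁿ` is ramified over the members on average with the ratio `ρ`,
`ρ d Q < d Q - err`, or if it is ramified over the members and this holds for `ρ = n/(n+1)`, then
every entire curve of `X` lies in a fibre or over a member.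

Let `Q ≥ 49 n²`. For general `a`:

(3) If all members are multiple on `X`, then every entire curve of `X` lies in a fibre.

(4) If `d ≥ 2`, then the complete intersection `y_i^d = b_i(x)`, `i < Q`, in `ℙ^(n+Q)` is smooth and
contains no non-constant entire curve. -/
theorem result :
    ∀ (n d Q : ℕ), 1 ≤ n → 1 ≤ d →
    (∀ t₁ t₂ : ℕ, 2 ≤ t₁ → 2 ≤ t₂ → Q * ((d - 1) * t₂ + d * t₁) < d * t₁ ^ 2 * t₂ →
      ∃ R : MvPolynomial (Fin Q × Mon n d) ℚ, R ≠ 0 ∧ ∀ a : Fin Q → Mon n d → ℂ,
        MvPolynomial.aeval (fun p : Fin Q × Mon n d => a p.1 p.2) R ≠ 0 →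
      (∀ f : ℂ → Fin (n + 1) → ℂ, Differentiable ℂ f → (∀ z, f z ≠ 0) →
        (¬ ∀ z w, ∃ c : ℂ, f w = c • f z) →
        ∃ (K : ℝ) (E : Set ℝ), MeasureTheory.volume E < ⊤ ∧ ∀ r, 1 ≤ r → r ∉ E →
          ((d : ℝ) * Q - (n * d * (t₁ + 2) + 2 * n * t₂ - 3 * n)) * charT f r ≤
            ∑ i, Nbar (fun z => MvPolynomial.eval (f z) (frm (a i))) r +
              K * (Real.posLog (charT f r) + Real.log r + 1)) ∧
      ∀ (m e : ℕ) (S : Set (MvPolynomial (Fin (m + 1)) ℂ))
        (φ : Fin (n + 1) → MvPolynomial (Fin (m + 1)) ℂ),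
        (∀ p ∈ S, ∃ d' : ℕ, p.IsHomogeneous d') → (∀ i, (φ i).IsHomogeneous e) →
        ∀ ρ : ℝ, 0 ≤ ρ →
          ρ * (d * Q) < (d : ℝ) * Q - (n * d * (t₁ + 2) + 2 * n * t₂ - 3 * n) →
          (RamifiedOnAverage ρ S φ (Finset.univ.image fun i => frm (a i)) ∨
            (ρ = (n : ℝ) / (n + 1) ∧ Ramified S φ (Finset.univ.image fun i => frm (a i)))) →
          CurvesIn S (MvPolynomial.aeval φ (∏ i, frm (a i))) φ ∧
          (GGL m (insert (MvPolynomial.aeval φ (∏ i, frm (a i))) S) →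
            (∀ t : Fin (n + 1) → ℂ, t ≠ 0 → GGL m (Fibre S φ t)) → GGL m S)) ∧
    (49 * n ^ 2 ≤ Q →
      ∃ R : MvPolynomial (Fin Q × Mon n d) ℚ, R ≠ 0 ∧ ∀ a : Fin Q → Mon n d → ℂ,
        MvPolynomial.aeval (fun p : Fin Q × Mon n d => a p.1 p.2) R ≠ 0 →
      (∀ (m e : ℕ) (S : Set (MvPolynomial (Fin (m + 1)) ℂ))
        (φ : Fin (n + 1) → MvPolynomial (Fin (m + 1)) ℂ),
        (∀ p ∈ S, ∃ d' : ℕ, p.IsHomogeneous d') → (∀ i, (φ i).IsHomogeneous e) →
        (∀ i, MultipleForm S φ (frm (a i))) →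
          (∀ f : ℂ → (Fin (m + 1) → ℂ), Differentiable ℂ f → (∀ z, f z ≠ 0) →
            (∀ z, ∀ p ∈ S, MvPolynomial.eval (f z) p = 0) →
            ∃ t : Fin (n + 1) → ℂ, t ≠ 0 ∧
              ∀ z, ∀ p ∈ Fibre S φ t, MvPolynomial.eval (f z) p = 0) ∧
          ((∀ t : Fin (n + 1) → ℂ, t ≠ 0 → GGL m (Fibre S φ t)) → GGL m S)) ∧
      (2 ≤ d → SCI (ciEq d fun i => frm (a i)) ∧
        ∀ f : ℂ → Fin (n + 1) ⊕ Fin Q → ℂ, Differentiable ℂ f → (∀ z, f z ≠ 0) →
          (∀ z i, MvPolynomial.eval (f z) (ciEq d (fun i => frm (a i)) i) = 0) →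
          ∀ z w, ∃ c : ℂ, f w = c • f z)) := by
  intro n d Q hn hd
  have hcard : Fintype.card (Fin Q) = Q := Fintype.card_fin Q
  refine ⟨fun t₁ t₂ ht₁ ht₂ hQ => ?_, fun hQ => ?_⟩
  · obtain ⟨R, hR0, hR⟩ := gh_open hn hd ht₁ ht₂ hQ
    refine ⟨R, hR0, fun a haR => ?_⟩
    obtain ⟨hsnc, hgen, -, -⟩ := hR a haR
    have hb : ∀ i, (frm (a i)).IsHomogeneous d := fun i => frm_hom (a i)
    refine ⟨fun f hf hf0 hnc => ?_, ?_⟩
    · obtain ⟨K, E, hE, h⟩ := smt_er hd ht₁ ht₂ _ hb hsnc hgen f hf hf0 hnc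
      refine ⟨K, E, hE, fun r hr hrE => ?_⟩
      have h1 := h r hr hrE
      rw [hcard] at h1
      exact h1
    intro m e S φ _ _ ρ hρ0 hρ hor
    have key2 : CurvesIn S (MvPolynomial.aeval φ (∏ i, frm (a i))) φ := by
      rcases Nat.eq_zero_or_pos Q with h0 | hpos
      · exfalso
        subst h0
        have h1 := er_pos hn hd ht₁ ht₂
        unfold er at h1
        push_cast at hρ
        have h2 : (0 : ℝ) ≤ (n : ℝ) * d := by positivity
        linarith
      have hne : (Finset.univ : Finset (Fin Q)).Nonempty := ⟨⟨0, hpos⟩, Finset.mem_univ _⟩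
      refine curves_b hn hd ht₁ ht₂ hb hsnc hgen ∅ Finset.univ (by simp) hne hρ0 ?_ S φ
        (by simp) ?_
      · rw [Finset.card_univ, hcard]
        exact hρ
      · rcases hor with h | ⟨rfl, h⟩
        · exact h
        · exact ram_b hn hd hb hsnc S φ h
    exact ⟨key2, ggl_of_curves key2⟩
  · obtain ⟨R, hR0, hR⟩ := open49 hn hd hQ
    refine ⟨R, hR0, fun a haR => ?_⟩
    obtain ⟨hsnc, t₁, t₂, ht₁, ht₂, her, hgen, -, -⟩ := hR a haR
    have hb : ∀ i, (frm (a i)).IsHomogeneous d := fun i => frm_hom (a i)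
    have hsnc' : Snc (fun i : Fin (49 * n ^ 2) => frm (a (Fin.castLE hQ i))) :=
      hsnc.comp (Fin.castLE hQ) (Fin.castLE_injective hQ)
    have hM : ∀ (m : ℕ) (S : Set (MvPolynomial (Fin (m + 1)) ℂ))
        (φ : Fin (n + 1) → MvPolynomial (Fin (m + 1)) ℂ),
        (∀ i, MultipleForm S φ (frm (a i))) →
          ∀ f : ℂ → (Fin (m + 1) → ℂ), Differentiable ℂ f → (∀ z, f z ≠ 0) →
            (∀ z, ∀ p ∈ S, MvPolynomial.eval (f z) p = 0) →
            ∃ t : Fin (n + 1) → ℂ, t ≠ 0 ∧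
              ∀ z, ∀ p ∈ Fibre S φ t, MvPolynomial.eval (f z) p = 0 := by
      intro m S φ hA
      exact mult_b hn hd ht₁ ht₂ (fun i => hb _) hsnc' hgen
        (by rw [Fintype.card_fin]; exact_mod_cast her) S φ fun i => hA _
    refine ⟨fun m e S φ _ _ hA => ⟨hM m S φ hA, ggl_of_fibres (hM m S φ hA)⟩, fun hd2 => ?_⟩
    refine ⟨ci_smooth hd2 _ hb hsnc, fun f hf hf0 hfE => ?_⟩
    refine ci_const hd2 _ hb ?_ f hf hf0 hfE
    intro g hg hg0 hord
    exact core_b hn hd ht₁ ht₂ (fun i => hb _) hsnc' hgen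
      (by rw [Fintype.card_fin]; exact_mod_cast her) g hg hg0 fun i z => hord _ z

end Pool.Agent.Results.MP_b9fedf_ag.GeneralHypersurfaces
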