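import Pool.Agent.Lib_MP_b9fedf_lo.LoMixed
import Pool.Agent.Lib_MP_b9fedf_lo.AvgCurves
import Pool.Agent.Lib_MP_b9fedf_lo.LevelMono
import Pool.Agent.Lib_MP_b9fedf_lo.RamArc
import Pool.Agent.Lib_MP_b9fedf_lo.AnyPos

/-!
# A second main theorem with truncation level one for many hypersurface sections

The base `Y = V(q)` is an arbitrary irreducible projective variety. For `q = ⊥`, i.e. `Y = ℙⁿ`,
the condition `RedOn q P` holds for all squarefree forms `P` (`redOn_bot`).

Sketch of the proof of the second main theorem. Most members of `D` are covered by disjoint subsets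
`D₁` of bounded size which span linear systems `ψ` on `Y` without base points, such that at most
`s` members of `D₁`, `s` small compared with `|D₁|`, vanish at the tangent lines of a curve
(`∑ c_i ψ_i` and its derivative along the curve vanish together). Then Cartan's method, with the
first derivative only, gives `(|D₁| - (m + 3) s) T ≤ b ∑ N_1 + O(log⁺ T + log r)` with `b > 1`
arbitrarily close to `1`: a growth lemma replaces the values at `r + δ` by those at `r`.
-/

set_option autoImplicit false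

namespace Pool.Agent.Results.MP_b9fedf_ag.LevelOne

open Pool.Agent.GGL Pool.Agent.SQ Pool.Agent.QY Pool.Agent.LO

/-- Let `Y = V(q) ⊆ ℙⁿ` be an irreducible projective variety (`q` a homogeneous prime ideal) and
let `D` be a set of more than `N(Y, e, M, ε)` forms of degrees between `1` and `e`, pairwise
non-proportional on `Y`, whose sections of `Y` have no multiple components.

If at most `M` members pass through each point of `Y`, then there is a form `Z` which does not
vanish on `Y` such that the second main theorem with truncation level one and defect `ε` holds for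
the non-constant entire curves of `Y` which are not contained in `Z = 0`, and for every projective
variety `X = V(S)` and every rational map `φ` from `X` to `Y` which is ramified over the members of
`D`, every entire curve of `X` is contained in `Z(φ) = 0` or in a fibre of `φ`.

If all members have degree `e`, in any position, then there are a form `Z` which does not vanish
on `Y` and forms `ψ_0, …, ψ_l` of degree `e`, `l ≥ 1`, linearly independent on `Y`, such that for
every projective variety `X = V(S)` and every rational map `φ` from `X` to `Y` which is multiple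
over the members of `D`, every entire curve of `X` is contained in `Z(φ) = 0` or in a fibre of the
rational map `[ψ(φ)]`. -/
theorem result :
    ∀ (n e M : ℕ) (ε : ℝ) (q : Ideal (MvPolynomial (Fin (n + 1)) ℂ)), 0 < ε → q.IsPrime →
      HomI q →
    ∃ N : ℕ, ∀ D : Finset (MvPolynomial (Fin (n + 1)) ℂ),
      (∀ P ∈ D, 1 ≤ P.totalDegree ∧ P.totalDegree ≤ e ∧ P.IsHomogeneous P.totalDegree ∧
        RedOn q P) →
      (∀ P ∈ D, ∀ P' ∈ D, ∀ c : ℂ, P' - MvPolynomial.C c * P ∈ q → P' = P) →
      N < D.card →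
      ((∀ x : Fin (n + 1) → ℂ, x ≠ 0 → (∀ g ∈ q, MvPolynomial.eval x g = 0) → ∀ D' ⊆ D,
          (∀ P ∈ D', MvPolynomial.eval x P = 0) → D'.card ≤ M) →
        ∃ (d : ℕ) (Z : MvPolynomial (Fin (n + 1)) ℂ), Z ∉ q ∧ Z.IsHomogeneous d ∧
          LevelOne ε q D Z ∧
          ∀ (m e' : ℕ) (S : Set (MvPolynomial (Fin (m + 1)) ℂ))
            (φ : Fin (n + 1) → MvPolynomial (Fin (m + 1)) ℂ),
            (∀ p ∈ S, ∃ d' : ℕ, p.IsHomogeneous d') → (∀ i, (φ i).IsHomogeneous e') →
            (∀ g ∈ q, ∀ x : Fin (m + 1) → ℂ, (∀ p ∈ S, MvPolynomial.eval x p = 0) →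
              MvPolynomial.eval x (MvPolynomial.aeval φ g) = 0) →
            Ramified S φ D →
            CurvesIn S (MvPolynomial.aeval φ Z) φ ∧
            (GGL m (insert (MvPolynomial.aeval φ Z) S) →
              (∀ t : Fin (n + 1) → ℂ, t ≠ 0 → GGL m (Fibre S φ t)) → GGL m S)) ∧
      ((∀ P ∈ D, P.totalDegree = e) →
        ∃ (l d : ℕ) (ψ : Fin (l + 1) → MvPolynomial (Fin (n + 1)) ℂ)
          (Z : MvPolynomial (Fin (n + 1)) ℂ), 1 ≤ l ∧ (∀ i, (ψ i).IsHomogeneous e) ∧
          (∀ v : Fin (l + 1) → ℂ, ∑ i, MvPolynomial.C (v i) * ψ i ∈ q → v = 0) ∧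
          Z ∉ q ∧ Z.IsHomogeneous d ∧
          ∀ (m e' : ℕ) (S : Set (MvPolynomial (Fin (m + 1)) ℂ))
            (φ : Fin (n + 1) → MvPolynomial (Fin (m + 1)) ℂ),
            (∀ p ∈ S, ∃ d' : ℕ, p.IsHomogeneous d') → (∀ i, (φ i).IsHomogeneous e') →
            (∀ g ∈ q, ∀ x : Fin (m + 1) → ℂ, (∀ p ∈ S, MvPolynomial.eval x p = 0) →
              MvPolynomial.eval x (MvPolynomial.aeval φ g) = 0) →
            Multiple M S φ D →
            CurvesIn S (MvPolynomial.aeval φ Z) (fun i => MvPolynomial.aeval φ (ψ i))) := by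
  intro n e M ε q hε hq hqh
  have hM2 : (0 : ℝ) < (M : ℝ) + 2 := by positivity
  set η : ℝ := min ε (1 / ((M : ℝ) + 2)) with hη
  have hη0 : 0 < η := lt_min hε (by positivity)
  have hη2 : η ≤ 1 / ((M : ℝ) + 2) := min_le_right _ _
  have hη1 : η < 1 := by
    refine lt_of_le_of_lt hη2 ?_
    rw [div_lt_one hM2]
    have : (0 : ℝ) ≤ M := Nat.cast_nonneg M
    linarith
  obtain ⟨N₁, hN₁⟩ := lo_mixed n e M q hq hqh hη0 hη1
  obtain ⟨N₂, hN₂⟩ := any_position n e M q hq hqh
  refine ⟨max N₁ N₂, fun D hD hD' hcard => ⟨fun hpos => ?_, fun hDe => ?_⟩⟩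
  swap
  · exact hN₂ D (fun P hP => by
      have h1 := (hD P hP).2.2.1
      rw [hDe P hP] at h1
      exact ⟨h1, (hD P hP).2.2.2⟩) hD' (lt_of_le_of_lt (le_max_right _ _) hcard)
  obtain ⟨d, Z, hd, hZ0, hZh, hZD, hL⟩ := hN₁ D hD hD' hpos
    (lt_of_le_of_lt (le_max_left _ _) hcard)
  refine ⟨d, Z, hZ0, hZh, hL.mono (min_le_left _ _), ?_⟩
  intro m e' S φ hS hφ hφq hR
  have hDn : D.Nonempty := Finset.card_pos.1 (lt_of_le_of_lt (Nat.zero_le _) hcard)
  have hρ0 : (0 : ℝ) ≤ (M : ℝ) / (M + 1) := by positivity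
  have hρ : (M : ℝ) / (M + 1) < 1 - η := by
    have hM0 : (0 : ℝ) ≤ M := Nat.cast_nonneg M
    have h1 : (M : ℝ) / (M + 1) < 1 - 1 / ((M : ℝ) + 2) := by
      have h2 : (1 : ℝ) - 1 / ((M : ℝ) + 2) = ((M : ℝ) + 1) / (M + 2) := by
        field_simp
        ring
      rw [h2, div_lt_div_iff₀ (by positivity) hM2]
      nlinarith
    linarith
  have key2 : CurvesIn S (MvPolynomial.aeval φ Z) φ :=
    avg_curves hρ hρ0 q hqh D hDn Z hd hZh (fun P hP => ⟨(hD P hP).1, (hD P hP).2.2.1⟩) hZD hL S φ hφq
      (ramified_avg hqh (fun P hP => (hD P hP).2.2.1) hpos hφq hR)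
  refine ⟨key2, ?_⟩
  intro hGZ hGF htor f hf hf0 hfS
  rcases key2 f hf hf0 hfS with h1 | ⟨t, ht0, ht⟩
  · refine hGZ ?_ f hf hf0 ?_
    · intro g L hL hspan F hF hF0 hFX hFL
      exact htor g L hL hspan F hF hF0 (fun z p hp => hFX z p (Set.mem_insert_of_mem _ hp)) hFL
    · intro z p hp
      rcases Set.mem_insert_iff.mp hp with rfl | hp
      · exact h1 z
      · exact hfS z p hp
  · refine hGF t ht0 ?_ f hf hf0 ht
    intro g L hL hspan F hF hF0 hFX hFL
    exact htor g L hL hspan F hF hF0 (fun z p hp => hFX z p (Or.inl hp)) hFL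

end Pool.Agent.Results.MP_b9fedf_ag.LevelOne
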