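import Pool.Agent.Lib_MP_b9fedf_td.Blocks

/-!
# A second main theorem with total truncation for general hypersurfaces

The zeros of `∏ b_i(f)` are counted without multiplicities and without regard to the number of
members which vanish. The constants do not depend on the degree `d` of the members. As a consequence
varieties over `ℙⁿ` on which `n` products of many general forms are multiple divisors (coverings of
degree `2 ^ n`, for example) have no entire curves outside the fibres.

Sketch of the proof. By a second main theorem with truncation level one for general hypersurfaces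
(`smt_er` in `Pool.Agent.Lib_MP_b9fedf_gh.Main`) it remains to show that the points of an entire
curve `f` on the intersections of two members contribute at most `(ε Q + C) d T_f`. In the affine
coordinates with `f_0 = 1` consider polynomials `G` in `x`, in vectors `g_1, …, g_n` and in jets
`y_{j,i}` of weight at most `ω`, with the derivation `y_{j,i} ↦ y_{j,i+1}`, `x ↦ ∑ y_{j,0} g_j`. By a
count of dimensions, there is such a `G ≠ 0` on the jets of `f`, of degree `A = O(K d Q)` in `x`, all
of whose derivatives of order less than `K²` lie in the ideals `(b_i, b_j)` of all pairs of members,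
for a suitable `ω` which is bounded in terms of `K` and `n`: modulo `(b_i, b_j)` the monomials in `x`
are combinations of those with exponents less than `d` at `x_0` and `x_1`, so the pairs impose
`O(Q² K² d² A^(n-1) …)` conditions on `O(A^(n+1) …)` coefficients. If the coefficients of the members
are algebraically independent, an automorphism of `ℂ` which fixes the jets of `f` and maps all but
boundedly many members to their images under a rational matrix shows that `G` can be chosen with
`G ≠ 0` on the curve `x = f`, `g_j = e_j`. Then the entire function given by `G` has a zero of order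
`K²` at the points of `f` on two of these members, and the theorem of Jensen and the lemma on the
logarithmic derivative give `K² N̄ ≤ (O(K d Q) + O(ω)) T_f`. The other members, boundedly many,
contribute `O(d) T_f`. By elimination the forms `G` exist for all families outside a proper closed
subset.
-/

set_option autoImplicit false

namespace Pool.Agent.Results.MP_b9fedf_ag.TotalTruncation

open Pool.Agent.GGL Pool.Agent.SQ Pool.Agent.Stat Pool.Agent.LO Pool.Agent.GH Pool.Agent.TT
open Pool.Agent.TD

open scoped Classical in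
/-- Let `n ≥ 2`, `d ≥ 1` and let `b_i = frm (a i)` be forms of degree `d` in `n + 1` variables with
the coefficients `a i`, `i < Q`. The word general means: for all `a` off the zeros of a nonzero
polynomial `R` with rational coefficients (which depends on `d` and `Q`).

(1) The second main theorem with total truncation: for all `ε > 0` there is `C = C(n, ε)` such that
for all `d`, all `Q` and general `a`, all non-constant entire curves `f` of `ℙⁿ` satisfy
`((1 - ε) Q - C) d T_f(r) ≤ N̄(r) + small`, where `N̄` counts the zeros of the product of all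
`b_i(f)` which do not vanish identically, each point once.

There is `N = N(n)` such that for all `d`, all `Q` and general `a`, and for all sets `B` of at least
`N` members, `P_B = ∏ b_i`, `i ∈ B`:

(2) If the divisor `P_B = 0` is multiple on a variety `X` over `ℙⁿ` (along arcs, the sum of the
relative orders of the members in `B` is never `1`), then every entire curve of `X` lies in a fibre or
over a member in `B`. For example, every non-constant entire curve of the cyclic cover
`w ^ e x_0 ^ (|B| d - e) = P_B(x)` of any degree `e ≥ 2`, `e ∣ |B| d`, lies over a member in `B`.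

(3) Let `B_1, …, B_n` be disjoint sets of at least `N` members. If each of the divisors `P_(B_k) = 0`
is multiple on a variety `X` over `ℙⁿ`, then every entire curve of `X` lies in a fibre. Every entire
curve `f` of `ℙⁿ` such that no `P_(B_k)(f)` has a simple zero is constant. -/
theorem result :
    ∀ n : ℕ, 2 ≤ n →
      (∀ ε : ℝ, 0 < ε → ∃ C : ℝ, ∀ d : ℕ, 1 ≤ d → ∀ Q : ℕ,
        ∃ R : MvPolynomial (Fin Q × Mon n d) ℚ, R ≠ 0 ∧ ∀ a : Fin Q → Mon n d → ℂ,
          MvPolynomial.aeval (fun p : Fin Q × Mon n d => a p.1 p.2) R ≠ 0 →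
        ∀ f : ℂ → Fin (n + 1) → ℂ, Differentiable ℂ f → (∀ z, f z ≠ 0) →
          (¬ ∀ z w, ∃ c : ℂ, f w = c • f z) →
          ∃ (K : ℝ) (E : Set ℝ), MeasureTheory.volume E < ⊤ ∧ ∀ r, 1 ≤ r → r ∉ E →
            ((1 - ε) * Q - C) * (d * charT f r) ≤
              Nbar (fun z => ∏ i : Fin Q, if ∀ w, MvPolynomial.eval (f w) (frm (a i)) = 0 then 1
                else MvPolynomial.eval (f z) (frm (a i))) r +
              K * (Real.posLog (charT f r) + Real.log r + 1)) ∧
      ∃ N : ℕ, ∀ d : ℕ, 1 ≤ d → ∀ Q : ℕ,
        ∃ R : MvPolynomial (Fin Q × Mon n d) ℚ, R ≠ 0 ∧ ∀ a : Fin Q → Mon n d → ℂ,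
          MvPolynomial.aeval (fun p : Fin Q × Mon n d => a p.1 p.2) R ≠ 0 →
        (∀ B : Finset (Fin Q), N ≤ B.card →
          (∀ (m e : ℕ) (S : Set (MvPolynomial (Fin (m + 1)) ℂ))
            (φ : Fin (n + 1) → MvPolynomial (Fin (m + 1)) ℂ),
            (∀ p ∈ S, ∃ d' : ℕ, p.IsHomogeneous d') → (∀ i, (φ i).IsHomogeneous e) →
            MultipleForm S φ (∏ i ∈ B, frm (a i)) →
            CurvesIn S (MvPolynomial.aeval φ (∏ i ∈ B, frm (a i))) φ ∧
            (GGL m (insert (MvPolynomial.aeval φ (∏ i ∈ B, frm (a i))) S) →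
              (∀ t : Fin (n + 1) → ℂ, t ≠ 0 → GGL m (Fibre S φ t)) → GGL m S)) ∧
          ∀ e : ℕ, 2 ≤ e → e ∣ B.card * d → ∀ f : ℂ → Fin (n + 2) → ℂ, Differentiable ℂ f →
            (∀ z, f z ≠ 0) →
            (∀ z, f z (Fin.last (n + 1)) ^ e * f z 0 ^ (B.card * d - e) =
              ∏ i ∈ B, MvPolynomial.eval (fun l : Fin (n + 1) => f z l.castSucc) (frm (a i))) →
            (¬ ∀ z w, ∃ c : ℂ, f w = c • f z) →
            ∀ z, ∏ i ∈ B, MvPolynomial.eval (fun l : Fin (n + 1) => f z l.castSucc) (frm (a i)) = 0) ∧
        ∀ B : Fin n → Finset (Fin Q), (∀ k l, k ≠ l → Disjoint (B k) (B l)) →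
          (∀ k, N ≤ (B k).card) →
          (∀ (m e : ℕ) (S : Set (MvPolynomial (Fin (m + 1)) ℂ))
            (φ : Fin (n + 1) → MvPolynomial (Fin (m + 1)) ℂ),
            (∀ p ∈ S, ∃ d' : ℕ, p.IsHomogeneous d') → (∀ i, (φ i).IsHomogeneous e) →
            (∀ k, MultipleForm S φ (∏ i ∈ B k, frm (a i))) →
            (∀ f : ℂ → (Fin (m + 1) → ℂ), Differentiable ℂ f → (∀ z, f z ≠ 0) →
              (∀ z, ∀ p ∈ S, MvPolynomial.eval (f z) p = 0) →
              ∃ t : Fin (n + 1) → ℂ, t ≠ 0 ∧
                ∀ z, ∀ p ∈ Fibre S φ t, MvPolynomial.eval (f z) p = 0) ∧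
            ((∀ t : Fin (n + 1) → ℂ, t ≠ 0 → GGL m (Fibre S φ t)) → GGL m S)) ∧
          ∀ f : ℂ → Fin (n + 1) → ℂ, Differentiable ℂ f → (∀ z, f z ≠ 0) →
            (∀ k z, analyticOrderAt
              (fun w => ∏ i ∈ B k, MvPolynomial.eval (f w) (frm (a i))) z ≠ 1) →
            ∀ z w, ∃ c : ℂ, f w = c • f z := by
  intro n hn
  have hn1 : 1 ≤ n := by omega
  refine ⟨fun ε hε => ?_, ?_⟩
  · obtain ⟨C, -, hC⟩ := tot_open4 hn1 hε
    refine ⟨C, fun d hd Q => ?_⟩
    obtain ⟨R, hR, hRp⟩ := hC d hd Q
    refine ⟨R, hR, fun a ha f hf hf0 hnc => ?_⟩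
    obtain ⟨K, E, hE, h⟩ := (hRp a ha).1 f hf hf0 hnc
      (Finset.univ.filter fun i => ∃ z, MvPolynomial.eval (f z) (frm (a i)) ≠ 0) (by simp)
    refine ⟨K, E, hE, fun r hr hrE => ?_⟩
    have h1 := h r hr hrE
    have h2 : (fun z => ∏ i ∈ Finset.univ.filter
        (fun i => ∃ z, MvPolynomial.eval (f z) (frm (a i)) ≠ 0),
          MvPolynomial.eval (f z) (frm (a i))) = fun z => ∏ i : Fin Q,
        if ∀ w, MvPolynomial.eval (f w) (frm (a i)) = 0 then 1 else
          MvPolynomial.eval (f z) (frm (a i)) := by
      funext z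
      rw [Finset.prod_filter]
      refine Finset.prod_congr rfl fun i _ => ?_
      by_cases h3 : ∀ w, MvPolynomial.eval (f w) (frm (a i)) = 0
      · rw [if_pos h3, if_neg]
        push Not
        exact h3
      · rw [if_neg h3, if_pos]
        push Not at h3
        exact h3
    rw [h2] at h1
    exact h1
  · obtain ⟨C, hC0, hC⟩ := tot_open_sub hn1 (ε := 1 / 4) (by norm_num)
    refine ⟨⌊4 * C⌋₊ + 1, fun d hd Q => ?_⟩
    have hQC : ∀ B : Finset (Fin Q), ⌊4 * C⌋₊ + 1 ≤ B.card → 4 * C < B.card := fun B hB =>
      lt_of_lt_of_le (Nat.lt_floor_add_one _) (by exact_mod_cast hB)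
    obtain ⟨R, hR, hRp⟩ := hC d hd Q
    refine ⟨R, hR, fun a ha => ?_⟩
    obtain ⟨hs, hT⟩ := hRp a ha
    have hb : ∀ i, (frm (a i)).IsHomogeneous d := fun i => frm_hom (a i)
    refine ⟨fun B hB => ⟨fun m e S φ _ _ hM => ?_, fun e he heQ f hf hf0 hfE hnc => ?_⟩,
      fun B hBd hB => ⟨fun m e S φ _ _ hM => ?_, fun f hf hf0 hord => ?_⟩⟩
    · have h1 := curves_of_block hd (fun i => frm (a i)) hb hs hC0 hT B (hQC B hB) S φ hM
      exact ⟨h1, ggl_of_curves h1⟩
    · exact cyclic_of_block hd (fun i => frm (a i)) hb hs hC0 hT B (hQC B hB) he heQ f hf hf0 hfE hnc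
    · have h1 := curves_of_blocks hd (fun i => frm (a i)) hb hs hC0 hT B hBd
        (fun k => hQC _ (hB k)) S φ hM
      exact ⟨h1, ggl_of_fibres h1⟩
    · exact const_of_blocks hd (fun i => frm (a i)) hb hs hC0 hT B hBd (fun k => hQC _ (hB k))
        f hf hf0 hord

end Pool.Agent.Results.MP_b9fedf_ag.TotalTruncation
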